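import Pool.Agent.X252.MTN

/-!
Mazur-Tate elements: if the order of vanishing statement or the leading term formula fails for one
real abelian field of `p`-power degree, it fails for most cyclic fields inside every larger field.
-/

set_option autoImplicit false

namespace Pool.Agent.Results.MP_5deabe_nt.FailureIsGeneric

open Finset Pool.Agent.X252.MT

theorem result (W : WeierstrassCurve ℤ) (p : ℕ) (hp : p.Prime) (Ω : ℂ) (hΩ : Ω ≠ 0)
    (θ : (F : Fld W p) → MonoidAlgebra (Zp p hp) (Du F.X)) (hθ : ∀ F, IsTheta F Ω (θ F)) :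
    (∀ r, Generic (fun F : Fld W p => InPow (r + 1) (θ F)) r) ∧
    ∀ (r : ℕ) (h : (F : Fld W p) → Fin r → Fin r → Du F.X), Compat W p h →
      ∀ c : Zp p hp, Generic (fun F : Fld W p => LT hp F (h F) c (θ F)) r :=
  genericity hp hΩ hθ

end Pool.Agent.Results.MP_5deabe_nt.FailureIsGeneric
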