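import Pool.Agent.X252.MTO

/-!
The leading term formula for the Mazur-Tate elements with a constant depending on the field: if it
holds for the fields with at most `2r` ramified primes, then it holds for all fields with one and the
same `p`-adic constant; this constant is determined by any sequence of fields for which the orders of
the regulators are unbounded.
-/

set_option autoImplicit false

namespace Pool.Agent.Results.MP_5deabe_nt.UniversalConstant

open Finset Pool.Agent.X252.MT

theorem result (W : WeierstrassCurve ℤ) (p : ℕ) (hp : p.Prime) (Ω : ℂ) (hΩ : Ω ≠ 0)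
    (θ : (F : Fld W p) → MonoidAlgebra (Zp p hp) (Du F.X)) (hθ : ∀ F, IsTheta F Ω (θ F))
    (r : ℕ) (hr : 1 ≤ r) (h : (F : Fld W p) → Fin r → Fin r → Du F.X) (hh : Compat W p h) :
    -- fields with at most `2r` ramified primes suffice
    ((∀ F : Fld W p, F.T.card ≤ 2 * r → ∃ c : Zp p hp, LT hp F (h F) c (θ F)) ↔
      Universal hp h θ) ∧
    -- pairs of cyclic fields with at most `r` ramified primes suffice if `r < p`
    (r < p → ((∀ F F' : Fld W p, IsCyclic F.X → IsCyclic F'.X → F.T.card ≤ r → F'.T.card ≤ r →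
      ∃ c : Zp p hp, LT hp F (h F) c (θ F) ∧ LT hp F' (h F') c (θ F')) ↔ Universal hp h θ)) ∧
    -- the same for the fields of exponent `p`, for all `r`
    ((∀ F F' : Fld W p, IsCyclic F.X → IsCyclic F'.X → F.T.card ≤ r → F'.T.card ≤ r →
      (∀ χ ∈ F.X, χ ^ p = 1) → (∀ χ ∈ F'.X, χ ^ p = 1) →
      ∃ c : Zp p hp, LT hp F (h F) c (θ F) ∧ LT hp F' (h F') c (θ F')) ↔
      ∃ c : ℤ, ∀ F : Fld W p, (∀ χ ∈ F.X, χ ^ p = 1) → LT hp F (h F) (c : Zp p hp) (θ F)) ∧
    -- a constant which is right for nondegenerate fields is right for all fields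
    (Universal hp h θ → ∀ c : Zp p hp, (∀ n : ℕ, ∃ F : Fld W p, LT hp F (h F) c (θ F) ∧
      ¬ InPow (r + 1) (((p ^ n : ℕ) : MonoidAlgebra (Zp p hp) (Du F.X)) *
        rdet (Zp p hp) (h F))) → ∀ F : Fld W p, LT hp F (h F) c (θ F)) :=
  constants hp hΩ hθ hh hr

end Pool.Agent.Results.MP_5deabe_nt.UniversalConstant
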